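import Mathlib

/-!
# A Sidon set of size 86 in `F_2^13`

The 86 numbers below `2 ^ 13` packed in the number `big` have pairwise different nonzero
bitwise sums; hence the 85 nonzero ones are the columns of a parity check matrix of a binary
linear code of length 85, dimension 72 and minimum distance 5.
-/

set_option autoImplicit false

namespace Pool.Agent.H47.Sid

/-- The 86 points, 13 bits each. -/
def big : ℕ := 2554787076588865954303077780012976913366657304446512134167146074628381712347923482444074406455398387227869657271278203303204677104013038445163686872260202603667850030511957767266612327352330031779915082040750026798911785194762566130047391302126102586480907211963527758345290246189443222088423523122381139436726903849280757334992618528768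

/-- The `i`-th point. -/
def col (i : ℕ) : ℕ := (big >>> (13 * i)) % 8192

/-- No entry of the list is marked in the mask, and the entries are pairwise different. -/
def nodupMask : List ℕ → ℕ → Bool
  | [], _ => true
  | k :: l, m => !(m.testBit k) && nodupMask l (m ||| (1 <<< k))

theorem nodupMask_spec (l : List ℕ) (m : ℕ) (h : nodupMask l m = true) :
    l.Nodup ∧ ∀ k ∈ l, m.testBit k = false := by
  induction l generalizing m with
  | nil => simp
  | cons k l ih =>
    simp only [nodupMask, Bool.and_eq_true, Bool.not_eq_true'] at h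
    obtain ⟨h1, h2⟩ := h
    obtain ⟨h3, h4⟩ := ih _ h2
    refine ⟨List.nodup_cons.2 ⟨?_, h3⟩, ?_⟩
    · intro hk
      have := h4 k hk
      simp [Nat.testBit_or, Nat.one_shiftLeft, Nat.testBit_two_pow_self] at this
    · intro j hj
      rcases List.mem_cons.1 hj with rfl | hj
      · exact h1
      · have := h4 j hj
        rw [Nat.testBit_or, Bool.or_eq_false_iff] at this
        exact this.1

/-- All pairs `(i, j)` with `j < i < 86`. -/
def pairs : List (ℕ × ℕ) := (List.range 86).flatMap fun i => (List.range i).map fun j => (i, j)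

theorem mem_pairs {i j : ℕ} : (i, j) ∈ pairs ↔ i < 86 ∧ j < i := by
  simp only [pairs, List.mem_flatMap, List.mem_range, List.mem_map, Prod.mk.injEq]
  constructor
  · rintro ⟨a, ha, b, hb, rfl, rfl⟩; exact ⟨ha, hb⟩
  · rintro ⟨ha, hb⟩; exact ⟨i, ha, j, hb, rfl, rfl⟩

theorem check : nodupMask (pairs.map fun p => col p.1 ^^^ col p.2) 1 = true := by
  decide +kernel

theorem xor_inj {a b c d : ℕ} (hab : b < a) (ha : a < 86) (hcd : d < c) (hc : c < 86)
    (h : col a ^^^ col b = col c ^^^ col d) : a = c ∧ b = d := by
  have h1 := (nodupMask_spec _ _ check).1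
  have h2 := List.inj_on_of_nodup_map h1 (mem_pairs.2 ⟨ha, hab⟩) (mem_pairs.2 ⟨hc, hcd⟩) h
  exact Prod.mk.inj h2

theorem xor_ne {a b : ℕ} (hab : b < a) (ha : a < 86) : col a ^^^ col b ≠ 0 := by
  have h1 := (nodupMask_spec _ _ check).2 (col a ^^^ col b)
    (List.mem_map.2 ⟨(a, b), mem_pairs.2 ⟨ha, hab⟩, rfl⟩)
  intro h
  rw [h] at h1
  simp at h1

/-- The vector of bits of a number. -/
def vec (k : ℕ) : Fin 13 → ZMod 2 := fun i => if k.testBit i then 1 else 0

theorem vec_xor (a b : ℕ) : vec (a ^^^ b) = vec a + vec b := by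
  funext i
  simp only [vec, Pi.add_apply, Nat.testBit_xor]
  cases a.testBit i <;> cases b.testBit i <;> decide

theorem vec_inj {a b : ℕ} (ha : a < 8192) (hb : b < 8192) (h : vec a = vec b) : a = b := by
  apply Nat.eq_of_testBit_eq
  intro i
  by_cases hi : i < 13
  · have := congrFun h ⟨i, hi⟩
    simp only [vec] at this
    revert this
    cases a.testBit i <;> cases b.testBit i <;> decide
  · have h1 : 8192 ≤ 2 ^ i := by
      have : (8192 : ℕ) = 2 ^ 13 := by norm_num
      rw [this]
      exact Nat.pow_le_pow_right (by norm_num) (by omega)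
    rw [Nat.testBit_eq_false_of_lt (by omega), Nat.testBit_eq_false_of_lt (by omega)]

theorem col_lt (i : ℕ) : col i < 8192 := Nat.mod_lt _ (by norm_num)

theorem add_self' (x : Fin 13 → ZMod 2) : x + x = 0 := by
  funext i
  simp only [Pi.add_apply, Pi.zero_apply]
  exact CharTwo.add_self_eq_zero _

theorem vec_add_ne {a b : ℕ} (hne : a ≠ b) (ha : a < 86) (hb : b < 86) :
    vec (col a) + vec (col b) ≠ 0 := by
  intro h
  have h1 : vec (col a) = vec (col b) := by
    calc vec (col a) = vec (col a) + (vec (col b) + vec (col b)) := by rw [add_self', add_zero]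
      _ = vec (col b) := by rw [← add_assoc, h, zero_add]
  have h2 := vec_inj (col_lt a) (col_lt b) h1
  rcases lt_or_gt_of_ne hne with hab | hab
  · exact xor_ne hab hb (by rw [h2, Nat.xor_self])
  · exact xor_ne hab ha (by rw [h2, Nat.xor_self])

theorem vec_add_inj {a b c d : ℕ} (hab : b < a) (ha : a < 86) (hcd : d < c) (hc : c < 86)
    (h : vec (col a) + vec (col b) = vec (col c) + vec (col d)) : a = c ∧ b = d := by
  rw [← vec_xor, ← vec_xor] at h
  have hlt : ∀ i j, col i ^^^ col j < 8192 := by
    intro i j
    have : (8192 : ℕ) = 2 ^ 13 := by norm_num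
    have h1 := col_lt i
    have h2 := col_lt j
    rw [this] at h1 h2 ⊢
    exact Nat.xor_lt_two_pow h1 h2
  exact xor_inj hab ha hcd hc (vec_inj (hlt _ _) (hlt _ _) h)

/-- Unordered version. -/
theorem vec_add_inj' {a b c d : ℕ} (hab : a ≠ b) (ha : a < 86) (hb : b < 86) (hcd : c ≠ d)
    (hc : c < 86) (hd : d < 86)
    (h : vec (col a) + vec (col b) = vec (col c) + vec (col d)) :
    (a = c ∧ b = d) ∨ (a = d ∧ b = c) := by
  rcases lt_or_gt_of_ne hab with h1 | h1 <;> rcases lt_or_gt_of_ne hcd with h2 | h2
  · have := vec_add_inj h1 hb h2 hd (by rw [add_comm, h, add_comm]); omega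
  · have := vec_add_inj h1 hb h2 hc (by rw [add_comm, h]); omega
  · have := vec_add_inj h1 ha h2 hd (by rw [h, add_comm]); omega
  · have := vec_add_inj h1 ha h2 hc h; omega

/-- No two or four different points sum to zero. -/
theorem sum_ne (T : Finset ℕ) (hT : ∀ i ∈ T, i < 86) (hc : T.card = 2 ∨ T.card = 4) :
    ∑ i ∈ T, vec (col i) ≠ 0 := by
  classical
  rcases hc with hc | hc
  · obtain ⟨a, b, hab, rfl⟩ := Finset.card_eq_two.1 hc
    rw [Finset.sum_pair hab]
    exact vec_add_ne hab (hT a (by simp)) (hT b (by simp))
  · obtain ⟨a, ha⟩ : T.Nonempty := by rw [← Finset.card_pos]; omega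
    have h3 : (T.erase a).card = 3 := by rw [Finset.card_erase_of_mem ha]; omega
    obtain ⟨b, c, d, hbc, hbd, hcd, he⟩ := Finset.card_eq_three.1 h3
    have hb : b ∈ T.erase a := by rw [he]; simp
    have hc' : c ∈ T.erase a := by rw [he]; simp
    have hd : d ∈ T.erase a := by rw [he]; simp
    rw [Finset.mem_erase] at hb hc' hd
    rw [← Finset.add_sum_erase _ _ ha, he]
    rw [Finset.sum_insert (by simp [hbc, hbd]), Finset.sum_pair hcd]
    intro h
    have h4 : vec (col a) + vec (col b) = vec (col c) + vec (col d) := by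
      calc vec (col a) + vec (col b)
          = vec (col a) + vec (col b)
            + ((vec (col c) + vec (col d)) + (vec (col c) + vec (col d))) := by
            rw [add_self' (vec (col c) + vec (col d)), add_zero]
        _ = (vec (col a) + (vec (col b) + (vec (col c) + vec (col d))))
            + (vec (col c) + vec (col d)) := by abel
        _ = vec (col c) + vec (col d) := by rw [h, zero_add]
    rcases vec_add_inj' (Ne.symm hb.1) (hT a ha) (hT b hb.2) hcd (hT c hc'.2) (hT d hd.2) h4 with
      h5 | h5
    · exact hc'.1 h5.1.symm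
    · exact hd.1 h5.1.symm

/-- The parity check map. -/
def par : (Fin 85 → ZMod 2) →ₗ[ZMod 2] (Fin 13 → ZMod 2) where
  toFun x := ∑ j : Fin 85, x j • vec (col (j + 1))
  map_add' x y := by simp only [Pi.add_apply, add_smul, Finset.sum_add_distrib]
  map_smul' c x := by simp only [Pi.smul_apply, smul_eq_mul, mul_smul, Finset.smul_sum,
    RingHom.id_apply]

theorem par_apply (x : Fin 85 → ZMod 2) :
    par x = ∑ j ∈ Finset.univ.filter (fun j => x j ≠ 0), vec (col (j.val + 1)) := by
  show ∑ j : Fin 85, x j • vec (col (j + 1)) = _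
  rw [Finset.sum_filter]
  apply Finset.sum_congr rfl
  intro j _
  by_cases h : x j = 0
  · simp [h]
  · have h1 : x j = 1 := by
      revert h
      generalize x j = y
      revert y
      decide
    simp [h1]

theorem dist (x : Fin 85 → ZMod 2) (hx : par x = 0) (hne : x ≠ 0) : 5 ≤ hammingNorm x := by
  classical
  by_contra hlt
  push Not at hlt
  rw [par_apply] at hx
  set T := Finset.univ.filter (fun j : Fin 85 => x j ≠ 0) with hTdef
  have hcard : T.card = hammingNorm x := rfl
  have hpos : 0 < hammingNorm x := hammingNorm_pos_iff.2 hne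
  set f : Fin 85 ↪ ℕ := ⟨fun j => j.val + 1, fun a b h => by
    have : a.val + 1 = b.val + 1 := h
    exact Fin.ext (by omega)⟩ with hf
  set T' := T.map f with hT'
  have hsum : ∑ i ∈ T', vec (col i) = 0 := by
    rw [hT', Finset.sum_map]
    exact hx
  have hT'lt : ∀ i ∈ T', i < 86 := by
    intro i hi
    rw [hT', Finset.mem_map] at hi
    obtain ⟨j, -, rfl⟩ := hi
    have := j.2
    show j.val + 1 < 86
    omega
  have h0 : (0 : ℕ) ∉ T' := by
    intro hi
    rw [hT', Finset.mem_map] at hi
    obtain ⟨j, -, hj⟩ := hi
    have : j.val + 1 = 0 := hj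
    omega
  have hcol0 : vec (col 0) = 0 := by
    have : col 0 = 0 := by decide +kernel
    rw [this]
    funext i
    simp [vec]
  have hcard' : T'.card = hammingNorm x := by rw [hT', Finset.card_map, hcard]
  have hcases : T'.card = 1 ∨ T'.card = 2 ∨ T'.card = 3 ∨ T'.card = 4 := by omega
  have hins : ∑ i ∈ insert 0 T', vec (col i) = 0 := by
    rw [Finset.sum_insert h0, hcol0, hsum, add_zero]
  have hinslt : ∀ i ∈ insert 0 T', i < 86 := by
    intro i hi
    rcases Finset.mem_insert.1 hi with rfl | hi
    · norm_num
    · exact hT'lt i hi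
  have hinsc : (insert 0 T').card = T'.card + 1 := Finset.card_insert_of_notMem h0
  rcases hcases with h | h | h | h
  · exact sum_ne _ hinslt (Or.inl (by omega)) hins
  · exact sum_ne _ hT'lt (Or.inl h) hsum
  · exact sum_ne _ hinslt (Or.inr (by omega)) hins
  · exact sum_ne _ hT'lt (Or.inr h) hsum

theorem par_surj : Function.Surjective par := by
  classical
  intro y
  refine ⟨fun j => if h : j.val < 13 then y ⟨j.val, h⟩ else 0, ?_⟩
  show ∑ j : Fin 85, (if h : j.val < 13 then y ⟨j.val, h⟩ else 0) • vec (col (j + 1)) = y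
  have hunit : ∀ i : Fin 13, vec (col (i.val + 1)) = Pi.single i 1 := by
    decide +kernel
  have h1 : ∑ j : Fin 85, (if h : j.val < 13 then y ⟨j.val, h⟩ else 0) • vec (col (j.val + 1))
      = ∑ i : Fin 13, y i • vec (col (i.val + 1)) := by
    symm
    apply Finset.sum_of_injOn (fun i : Fin 13 => (⟨i.val, by omega⟩ : Fin 85))
    · intro a _ b _ h
      exact Fin.ext (by simpa using congrArg Fin.val h)
    · intro a _
      simp
    · intro j _ hj
      have : ¬ j.val < 13 := by
        intro hlt
        apply hj
        exact ⟨⟨j.val, hlt⟩, by simp, rfl⟩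
      simp [this]
    · intro i _
      simp
  rw [h1]
  simp only [hunit]
  funext k
  simp [Finset.sum_apply, Pi.single_apply]

theorem finrank_ker : Module.finrank (ZMod 2) (LinearMap.ker par) = 72 := by
  have h1 := LinearMap.finrank_range_add_finrank_ker par
  rw [LinearMap.range_eq_top.2 par_surj, finrank_top] at h1
  simp only [Module.finrank_fintype_fun_eq_card, Fintype.card_fin] at h1
  omega

/-- A word of weight five. -/
def word : Fin 85 → ZMod 2 := fun j => if j.val ∈ [0, 1, 4, 8, 38] then 1 else 0

theorem word_mem : par word = 0 := by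
  have h1 : par word = ∑ j ∈ ({0, 1, 4, 8, 38} : Finset (Fin 85)), vec (col (j.val + 1)) := by
    rw [par_apply]
    apply Finset.sum_congr
    · decide +kernel
    · intro _ _; rfl
  rw [h1]
  decide +kernel

theorem word_norm : hammingNorm word = 5 := by
  decide +kernel

end Pool.Agent.H47.Sid
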